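import Pool.Agent.U496.PS.Logc

/-!
# Changes of sequences with values `±1` and their correlations
-/

set_option autoImplicit false

namespace Pool.Agent.U496.PS

open Finset

lemma sum_Icc_range (g : ℕ → ℝ) (N : ℕ) : ∑ n ∈ Icc 1 N, g n = ∑ n ∈ range N, g (n + 1) := by
  induction N with
  | zero => simp
  | succ N ih => rw [sum_Icc_succ_top (by omega), sum_range_succ, ih]

lemma pm_mul (f : ℕ → ℤ) (hf : ∀ n, 1 ≤ n → f n = 1 ∨ f n = -1) (ρ n : ℕ) :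
    (f (n + 1) : ℝ) * f (n + 1 + ρ) = 1 - 2 * (if f (n + 1 + ρ) ≠ f (n + 1) then 1 else 0) := by
  rcases hf (n + 1) (by omega) with h1 | h1 <;> rcases hf (n + 1 + ρ) (by omega) with h2 | h2 <;> rw [h1, h2] <;>
    norm_num

lemma corr_count (f : ℕ → ℤ) (hf : ∀ n, 1 ≤ n → f n = 1 ∨ f n = -1) (ρ N : ℕ) :
    ∑ n ∈ Icc 1 N, (f n : ℝ) * f (n + ρ) =
      N - 2 * ((range N).filter fun n => f (n + 1 + ρ) ≠ f (n + 1)).card := by
  rw [sum_Icc_range, card_filter_real, mul_sum, sum_congr rfl (fun n _ => pm_mul f hf ρ n), sum_sub_distrib]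
  simp

lemma corr_log (f : ℕ → ℤ) (hf : ∀ n, 1 ≤ n → f n = 1 ∨ f n = -1) (ρ N : ℕ) :
    ∑ n ∈ Icc 1 N, (f n : ℝ) * f (n + ρ) / n =
      ∑ n ∈ Icc 1 N, 1 / (n : ℝ) - 2 * lcard ((range N).filter fun n => f (n + 1 + ρ) ≠ f (n + 1)) := by
  rw [sum_Icc_range, sum_Icc_range, lcard_filter, mul_sum, ← sum_sub_distrib]
  refine sum_congr rfl fun n _ => ?_
  rw [pm_mul f hf ρ n]
  push_cast
  ring

lemma log_le_harm (N : ℕ) : Real.log N ≤ ∑ n ∈ Icc 1 N, 1 / (n : ℝ) := by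
  rcases Nat.eq_zero_or_pos N with h | h
  · rw [h]
    simp
  · have h1 := log_add_one_le_harmonic N
    have h2 : ((harmonic N : ℚ) : ℝ) = ∑ n ∈ Icc 1 N, 1 / (n : ℝ) := by
      rw [harmonic_eq_sum_Icc]
      push_cast
      refine sum_congr rfl fun n _ => ?_
      rw [one_div]
    rw [h2] at h1
    refine le_trans (Real.log_le_log (by exact_mod_cast h) ?_) h1
    push_cast
    linarith

/-- lower bounds for the number of the changes, from upper bounds for the correlation -/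
lemma changes_of_corr (f : ℕ → ℤ) (hf : ∀ n, 1 ≤ n → f n = 1 ∨ f n = -1) (ρ N : ℕ) (c : ℝ)
    (h : ∑ n ∈ Icc 1 N, (f n : ℝ) * f (n + ρ) ≤ (1 - c) * N) :
    c / 2 * N ≤ ((range N).filter fun n => f (n + 1 + ρ) ≠ f (n + 1)).card := by
  rw [corr_count f hf] at h
  linarith

lemma log_changes_of_corr (f : ℕ → ℤ) (hf : ∀ n, 1 ≤ n → f n = 1 ∨ f n = -1) (ρ N : ℕ) (c ε : ℝ) (hc : 0 ≤ c)
    (h : ∑ n ∈ Icc 1 N, (f n : ℝ) * f (n + ρ) / n ≤ (1 - c) * ∑ n ∈ Icc 1 N, 1 / (n : ℝ) + ε * Real.log N) :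
    (c - ε) / 2 * Real.log N ≤ lcard ((range N).filter fun n => f (n + 1 + ρ) ≠ f (n + 1)) := by
  rw [corr_log f hf] at h
  have h1 := mul_le_mul_of_nonneg_left (log_le_harm N) hc
  linarith

end Pool.Agent.U496.PS
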