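import Pool.Agent.U496.PS.Pat

/-!
# Changes and errors, counted with the weights `1 / n`
-/

set_option autoImplicit false

namespace Pool.Agent.U496.PS

open Finset
open Pool.Agent.U364.PD (Machine errors Predicts)

/-- summation by parts -/
lemma abel (w z : ℕ → ℝ) (C : ℝ) (hw : ∀ n, w (n + 1) ≤ w n) (hw0 : ∀ n, 0 ≤ w n) (hC : 0 ≤ C) (N : ℕ)
    (h : ∀ m, m ≤ N → ∑ n ∈ range m, z n ≤ C) : ∑ n ∈ range N, w n * z n ≤ C * w 0 := by
  have key : ∀ m, m + 1 ≤ N → ∑ n ∈ range (m + 1), w n * z n ≤ C * (w 0 - w m) + w m * ∑ n ∈ range (m + 1), z n := by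
    intro m
    induction m with
    | zero => intro _; simp
    | succ m ih =>
      intro hm
      rw [sum_range_succ]
      have h1 := ih (by omega)
      have h2 := h (m + 1) (by omega)
      have h3 : ∑ n ∈ range (m + 1 + 1), z n = ∑ n ∈ range (m + 1), z n + z (m + 1) := sum_range_succ _ _
      rw [h3]
      have h4 : (w m - w (m + 1)) * ∑ n ∈ range (m + 1), z n ≤ (w m - w (m + 1)) * C :=
        mul_le_mul_of_nonneg_left h2 (by linarith [hw m])
      nlinarith
  rcases Nat.eq_zero_or_pos N with h0 | h0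
  · rw [h0]
    simp only [range_zero, sum_empty]
    exact mul_nonneg hC (hw0 0)
  · obtain ⟨m, rfl⟩ : ∃ m, N = m + 1 := ⟨N - 1, by omega⟩
    refine (key m le_rfl).trans ?_
    have h1 := mul_le_mul_of_nonneg_left (h (m + 1) le_rfl) (hw0 m)
    nlinarith

/-- the number of elements of a set, counted with the weights `1 / n` -/
noncomputable def lcard (S : Finset ℕ) : ℝ := ∑ n ∈ S, 1 / ((n : ℝ) + 1)

lemma lcard_nonneg (S : Finset ℕ) : 0 ≤ lcard S := by
  unfold lcard
  positivity

lemma lcard_filter (P : ℕ → Prop) [DecidablePred P] (N : ℕ) :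
    lcard ((range N).filter P) = ∑ n ∈ range N, 1 / ((n : ℝ) + 1) * (if P n then 1 else 0) := by
  unfold lcard
  rw [sum_filter]
  refine sum_congr rfl fun n _ => ?_
  split_ifs <;> simp

lemma card_filter_real (P : ℕ → Prop) [DecidablePred P] (N : ℕ) :
    (((range N).filter P).card : ℝ) = ∑ n ∈ range N, (if P n then (1 : ℝ) else 0) := by
  rw [card_filter]
  push_cast
  rfl

/-- from an inequality between the counting functions to the weights `1 / n` -/
lemma log_of_count (P P₁ P₂ : ℕ → Prop) [DecidablePred P] [DecidablePred P₁] [DecidablePred P₂] (A B C : ℝ)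
    (hC : 0 ≤ C) (N : ℕ)
    (h : ∀ m, m ≤ N → (((range m).filter P).card : ℝ) ≤ A * ((range m).filter P₁).card +
      B * ((range m).filter P₂).card + C) :
    lcard ((range N).filter P) ≤ A * lcard ((range N).filter P₁) + B * lcard ((range N).filter P₂) + C := by
  have h1 := abel (fun n => 1 / ((n : ℝ) + 1))
    (fun n => (if P n then (1 : ℝ) else 0) - A * (if P₁ n then 1 else 0) - B * (if P₂ n then 1 else 0)) C
    (fun n => by
      apply one_div_le_one_div_of_le (by positivity)
      push_cast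
      linarith) (fun n => by positivity) hC N (fun m hm => by
      have h2 := h m hm
      rw [card_filter_real, card_filter_real, card_filter_real] at h2
      rw [sum_sub_distrib, sum_sub_distrib, ← mul_sum, ← mul_sum]
      linarith)
  rw [lcard_filter, lcard_filter, lcard_filter]
  have h2 : ∑ n ∈ range N, 1 / ((n : ℝ) + 1) * ((if P n then (1 : ℝ) else 0) - A * (if P₁ n then 1 else 0) -
      B * (if P₂ n then 1 else 0)) = ∑ n ∈ range N, 1 / ((n : ℝ) + 1) * (if P n then (1 : ℝ) else 0) -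
        A * ∑ n ∈ range N, 1 / ((n : ℝ) + 1) * (if P₁ n then (1 : ℝ) else 0) -
        B * ∑ n ∈ range N, 1 / ((n : ℝ) + 1) * (if P₂ n then (1 : ℝ) else 0) := by
    rw [mul_sum, mul_sum, ← sum_sub_distrib, ← sum_sub_distrib]
    refine sum_congr rfl fun n _ => ?_
    ring
  rw [h2] at h1
  simp only [Nat.cast_zero, zero_add, div_one, mul_one] at h1
  linarith

open Classical in
/-- the errors, counted with the weights `1 / n` -/
noncomputable def logErrors {Q Γ : Type} (M : Machine Q Γ) (d : ℕ → ℤ) (q₀ : Q) (s₀ : List Γ) (N : ℕ) : ℝ :=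
  ∑ n ∈ (range N).filter (fun n => ¬ Predicts M d q₀ s₀ n), 1 / ((n : ℝ) + 1)

/-- **Transfer.** The changes at a distance `ρ` of a sequence which is near to a function of a sequence that `M` reads -/
theorem transfer {Q Γ : Type} [Finite Q] [Finite Γ] (M : Machine Q Γ) (B : ℕ) :
    ∃ K ρ : ℕ, 1 ≤ ρ ∧ ∀ a : ℕ → ℤ, (∀ n, 0 ≤ a n ∧ a n < B) → ∀ (φ : ℤ → ℤ) (w : ℕ → ℤ) (q₀ : Q) (s₀ : List Γ) (N : ℕ),
      ((((range N).filter fun n => w (n + 1 + ρ) ≠ w (n + 1)).card : ℝ) ≤
        K * (((range N).filter fun n => φ (a (n + 1)) ≠ w (n + 1)).card + errors M a q₀ s₀ N + s₀.length + 1)) ∧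
      lcard ((range N).filter fun n => w (n + 1 + ρ) ≠ w (n + 1)) ≤
        K * (lcard ((range N).filter fun n => φ (a (n + 1)) ≠ w (n + 1)) + logErrors M a q₀ s₀ N + s₀.length + 1) := by
  classical
  obtain ⟨K1, ρ, hρ, h1⟩ := changes_le M B
  refine ⟨K1 + ρ + 2, ρ, hρ, fun a ha φ w q₀ s₀ N => ?_⟩
  have hcount : ∀ m, (((range m).filter fun n => w (n + 1 + ρ) ≠ w (n + 1)).card : ℝ) ≤
      2 * ((range m).filter fun n => φ (a (n + 1)) ≠ w (n + 1)).card +
        K1 * ((range m).filter fun n => ¬ Predicts M a q₀ s₀ n).card + (K1 * (s₀.length + 1) + ρ) := by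
    intro m
    have h5 := h1 a ha q₀ s₀ m
    have h6 := changes_near a φ w ρ m
    have h7 : ((range m).filter (fun n => w (n + 1 + ρ) ≠ w (n + 1))).card ≤
        K1 * (errors M a q₀ s₀ m + s₀.length + 1) +
          (2 * ((range m).filter (fun n => φ (a (n + 1)) ≠ w (n + 1))).card + ρ) := by
      refine h6.trans (Nat.add_le_add_right (le_trans (le_of_eq ?_) h5) _)
      congr 1
    have h8 : errors M a q₀ s₀ m = ((range m).filter fun n => ¬ Predicts M a q₀ s₀ n).card := by
      unfold errors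
      congr!
    rw [h8] at h7
    have h9 : (((range m).filter (fun n => w (n + 1 + ρ) ≠ w (n + 1))).card : ℝ) ≤
        K1 * ((((range m).filter fun n => ¬ Predicts M a q₀ s₀ n).card : ℝ) + s₀.length + 1) +
          (2 * ((range m).filter (fun n => φ (a (n + 1)) ≠ w (n + 1))).card + ρ) := by exact_mod_cast h7
    linarith
  have hK1 : (0 : ℝ) ≤ K1 := by positivity
  have hρ0 : (0 : ℝ) ≤ ρ := by positivity
  have hs : (0 : ℝ) ≤ s₀.length := by positivity
  have h8 : errors M a q₀ s₀ N = ((range N).filter fun n => ¬ Predicts M a q₀ s₀ n).card := by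
    unfold errors
    congr!
  have h8' : logErrors M a q₀ s₀ N = lcard ((range N).filter fun n => ¬ Predicts M a q₀ s₀ n) := by
    unfold logErrors lcard
    congr!
  constructor
  · have h2 := hcount N
    rw [h8]
    push_cast
    have h3 : (0 : ℝ) ≤ ((range N).filter fun n => φ (a (n + 1)) ≠ w (n + 1)).card := by positivity
    have h4 : (0 : ℝ) ≤ ((range N).filter fun n => ¬ Predicts M a q₀ s₀ n).card := by positivity
    nlinarith [mul_nonneg hK1 h3, mul_nonneg hρ0 h3, mul_nonneg hρ0 h4, mul_nonneg hρ0 hs]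
  · have h2 := log_of_count (fun n => w (n + 1 + ρ) ≠ w (n + 1)) (fun n => φ (a (n + 1)) ≠ w (n + 1))
      (fun n => ¬ Predicts M a q₀ s₀ n) 2 K1 (K1 * (s₀.length + 1) + ρ) (by positivity) N (fun m _ => hcount m)
    rw [h8']
    push_cast
    have h3 := lcard_nonneg ((range N).filter fun n => φ (a (n + 1)) ≠ w (n + 1))
    have h4 := lcard_nonneg ((range N).filter fun n => ¬ Predicts M a q₀ s₀ n)
    nlinarith [mul_nonneg hK1 h3, mul_nonneg hρ0 h3, mul_nonneg hρ0 h4, mul_nonneg hρ0 hs]

end Pool.Agent.U496.PS
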