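import Pool.Agent.U496.PS.Digits

/-!
# The number of the changes at one distance

For every pushdown machine there is a distance `ρ` such that the number of the `n < N` with `a (n + ρ) ≠ a n` is at most
a constant times the number of the errors.
-/

set_option autoImplicit false

namespace Pool.Agent.U496.PS

open Finset
open Pool.Agent.U364.PD (Machine errors)
open Pool.Agent.U496.PD (Rep)

lemma rep_fact (a : ℕ → ℤ) (P n : ℕ) (h : Rep a P.factorial P n) : a (n + 1 + P.factorial) = a (n + 1) := by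
  obtain ⟨ρ, hρ1, hρP, hper⟩ := h
  obtain ⟨k, hk⟩ : ρ ∣ P.factorial := Nat.dvd_factorial hρ1 hρP
  have h1 : ∀ j, j ≤ k → a (n + 1 + ρ * j) = a (n + 1) := by
    intro j
    induction j with
    | zero => intro _; simp
    | succ j ih =>
      intro hj
      rw [← ih (by omega)]
      have h2 : ρ * j < P.factorial := by
        rw [hk]
        exact Nat.mul_lt_mul_of_pos_left (by omega) hρ1
      have h3 := hper (ρ * j) h2
      rw [show n + 1 + ρ * (j + 1) = n + ρ * j + ρ + 1 by ring, h3]
      congr 1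
      omega
  rw [hk]
  exact h1 k le_rfl

open Classical in
theorem changes_le {Q Γ : Type} [Finite Q] [Finite Γ] (M : Machine Q Γ) (b : ℕ) :
    ∃ K ρ : ℕ, 1 ≤ ρ ∧ ∀ a : ℕ → ℤ, (∀ n, 0 ≤ a n ∧ a n < b) → ∀ (q₀ : Q) (s₀ : List Γ) (N : ℕ),
      ((range N).filter (fun n => a (n + 1 + ρ) ≠ a (n + 1))).card ≤ K * (errors M a q₀ s₀ N + s₀.length + 1) := by
  obtain ⟨K, P, hP, h⟩ := local_per M b
  refine ⟨K * (P.factorial + 1), P.factorial, Nat.factorial_pos P, fun a ha q₀ s₀ N => ?_⟩
  refine (card_le_card ?_).trans (h a ha q₀ s₀ P.factorial N)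
  intro n hn
  rw [mem_filter] at hn ⊢
  exact ⟨hn.1, fun hr => hn.2 (rep_fact a P n hr)⟩

end Pool.Agent.U496.PS
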