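import Pool.Agent.U496.PS.Corr

/-!
# Sequences with finitely many values, coded by roots of unity
-/

set_option autoImplicit false

namespace Pool.Agent.U496.PS

open Finset
open ArithmeticFunction (cardFactors)

lemma finset_lb {α : Type*} (S : Finset α) (f : α → ℝ) (h : ∀ x ∈ S, 0 < f x) :
    ∃ κ : ℝ, 0 < κ ∧ ∀ x ∈ S, κ ≤ f x := by
  classical
  induction S using Finset.induction_on with
  | empty => exact ⟨1, one_pos, by simp⟩
  | insert a S ha ih =>
    obtain ⟨κ, hκ, h1⟩ := ih (fun x hx => h x (mem_insert_of_mem hx))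
    refine ⟨min κ (f a), lt_min hκ (h a (mem_insert_self _ _)), fun x hx => ?_⟩
    rcases mem_insert.1 hx with rfl | hx
    · exact min_le_right _ _
    · exact (min_le_left _ _).trans (h1 x hx)

lemma re_mul_conj (x y : ℂ) (hx : ‖x‖ = 1) (hy : ‖y‖ = 1) :
    (x * (starRingEnd ℂ) y).re = 1 - ‖x - y‖ ^ 2 / 2 := by
  have h1 : ‖x - y‖ ^ 2 = Complex.normSq (x - y) := (Complex.normSq_eq_norm_sq _).symm
  have h2 : Complex.normSq x = 1 := by rw [Complex.normSq_eq_norm_sq, hx]; norm_num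
  have h3 : Complex.normSq y = 1 := by rw [Complex.normSq_eq_norm_sq, hy]; norm_num
  rw [h1, Complex.normSq_sub, h2, h3]
  ring

/-- a root of unity `ζ` of order `m`; different powers are at a positive distance -/
lemma exists_root (m : ℕ) (hm : 1 ≤ m) : ∃ (ζ : ℂ) (κ : ℝ), ζ ^ m = 1 ∧ ‖ζ‖ = 1 ∧ 0 < κ ∧ κ ≤ 1 ∧
    ∀ i j : ℕ, i < m → j < m → i ≠ j → (ζ ^ i * (starRingEnd ℂ) (ζ ^ j)).re ≤ 1 - κ := by
  have hp := Complex.isPrimitiveRoot_exp m (by omega)
  set ζ := Complex.exp (2 * Real.pi * Complex.I / m) with hζ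
  have hn : ‖ζ‖ = 1 := hp.norm'_eq_one (by omega)
  obtain ⟨κ, hκ, h1⟩ := finset_lb (((range m) ×ˢ (range m)).filter fun p => p.1 ≠ p.2)
    (fun p => ‖ζ ^ p.1 - ζ ^ p.2‖ ^ 2 / 2) (fun p hp' => by
      simp only [mem_filter, mem_product, mem_range] at hp'
      have h2 : ζ ^ p.1 ≠ ζ ^ p.2 := fun h => hp'.2 (hp.pow_inj hp'.1.1 hp'.1.2 h)
      have h3 : 0 < ‖ζ ^ p.1 - ζ ^ p.2‖ := norm_pos_iff.2 (sub_ne_zero.2 h2)
      positivity)
  refine ⟨ζ, min κ 1, hp.pow_eq_one, hn, lt_min hκ one_pos, min_le_right _ _, fun i j hi hj hij => ?_⟩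
  have h2 := h1 (i, j) (by simp [hi, hj, hij])
  rw [re_mul_conj _ _ (by rw [norm_pow, hn, one_pow]) (by rw [norm_pow, hn, one_pow])]
  have h3 := min_le_left κ 1
  simp only at h2
  linarith

/-- if no value is taken too often, the mean of the roots of unity is not near `1` in absolute value -/
lemma mean_of_freq (m : ℕ) (ζ : ℂ) (κ : ℝ) (hn : ‖ζ‖ = 1) (hκ : 0 < κ) (hκ1 : κ ≤ 1)
    (hre : ∀ i j : ℕ, i < m → j < m → i ≠ j → (ζ ^ i * (starRingEnd ℂ) (ζ ^ j)).re ≤ 1 - κ)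
    (δ : ℝ) (hδ : 0 < δ) (hδ1 : δ ≤ 1) (N : ℕ) (G : ℕ → ℕ) (hG : ∀ n, G n < m)
    (hf : ∀ v : ℕ, (((Icc 1 N).filter fun n => G n = v).card : ℝ) ≤ (1 - δ) * N) :
    ‖∑ n ∈ Icc 1 N, ζ ^ G n‖ ≤ (1 - κ * δ / 2) * N := by
  classical
  have hcard : ((Icc 1 N).card : ℝ) = N := by simp
  have h1 : ‖∑ n ∈ Icc 1 N, ζ ^ G n‖ ^ 2 =
      ∑ n ∈ Icc 1 N, ∑ n' ∈ Icc 1 N, (ζ ^ G n * (starRingEnd ℂ) (ζ ^ G n')).re := by
    rw [← Complex.normSq_eq_norm_sq, ← Complex.ofReal_re (Complex.normSq _), ← Complex.mul_conj, map_sum, sum_mul_sum,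
      Complex.re_sum]
    exact sum_congr rfl fun n _ => Complex.re_sum _ _
  have h2 : ∀ n ∈ Icc 1 N, ∑ n' ∈ Icc 1 N, (ζ ^ G n * (starRingEnd ℂ) (ζ ^ G n')).re ≤ (1 - κ * δ) * N := by
    intro n _
    have h3 : ∑ n' ∈ Icc 1 N, (ζ ^ G n * (starRingEnd ℂ) (ζ ^ G n')).re ≤
        ∑ n' ∈ Icc 1 N, (1 - κ + κ * (if G n' = G n then (1 : ℝ) else 0)) := by
      refine sum_le_sum fun n' _ => ?_
      by_cases h : G n' = G n
      · rw [if_pos h, h, re_mul_conj _ _ (by rw [norm_pow, hn, one_pow]) (by rw [norm_pow, hn, one_pow])]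
        simp
      · rw [if_neg h]
        have := hre (G n) (G n') (hG n) (hG n') (Ne.symm h)
        linarith
    refine h3.trans ?_
    rw [sum_add_distrib, ← mul_sum, sum_const, nsmul_eq_mul, hcard]
    have h4 : ∑ n' ∈ Icc 1 N, (if G n' = G n then (1 : ℝ) else 0) = ((Icc 1 N).filter fun n' => G n' = G n).card := by
      rw [card_filter]
      push_cast
      rfl
    rw [h4]
    have h5 := hf (G n)
    nlinarith
  have h3 : ‖∑ n ∈ Icc 1 N, ζ ^ G n‖ ^ 2 ≤ (1 - κ * δ) * N * N := by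
    rw [h1]
    refine (sum_le_sum h2).trans ?_
    rw [sum_const, nsmul_eq_mul, hcard]
    linarith
  have hN0 : (0 : ℝ) ≤ N := Nat.cast_nonneg N
  have hkd : κ * δ ≤ 1 := by nlinarith
  have h4 : 0 ≤ (1 - κ * δ / 2) * N := mul_nonneg (by linarith) hN0
  refine abs_le_of_sq_le_sq' ?_ h4 |>.2
  refine h3.trans ?_
  have h5 : ((1 - κ * δ / 2) * (N : ℝ)) ^ 2 = (1 - κ * δ) * N * N + (κ * δ / 2) ^ 2 * (N * N) := by ring
  rw [h5]
  have h6 : 0 ≤ (κ * δ / 2) ^ 2 * ((N : ℝ) * N) := by positivity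
  linarith

/-- the number of the changes, from the correlations of the roots of unity -/
lemma changes_of_root (m : ℕ) (ζ : ℂ) (hn : ‖ζ‖ = 1) (G : ℕ → ℕ) (ρ N : ℕ) (c : ℝ)
    (h : ‖∑ n ∈ Icc 1 N, ζ ^ G n * (starRingEnd ℂ) (ζ ^ G (n + ρ))‖ ≤ (1 - c) * N) :
    c / 2 * N ≤ ((range N).filter fun n => G (n + 1 + ρ) ≠ G (n + 1)).card := by
  have h1 : ∑ n ∈ Icc 1 N, (1 - 2 * (if G (n + ρ) ≠ G n then (1 : ℝ) else 0)) ≤ (1 - c) * N := by
    refine le_trans ?_ ((Complex.re_le_norm _).trans h)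
    rw [Complex.re_sum]
    refine sum_le_sum fun n _ => ?_
    by_cases hh : G (n + ρ) = G n
    · rw [if_neg (not_not.2 hh), hh, re_mul_conj _ _ (by rw [norm_pow, hn, one_pow]) (by rw [norm_pow, hn, one_pow])]
      simp
    · rw [if_pos hh]
      have h2 := Complex.abs_re_le_norm (ζ ^ G n * (starRingEnd ℂ) (ζ ^ G (n + ρ)))
      rw [norm_mul, RCLike.norm_conj, norm_pow, norm_pow, hn, one_pow, one_pow, mul_one] at h2
      have h3 := (abs_le.1 h2).1
      linarith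
  rw [sum_Icc_range (fun n => 1 - 2 * (if G (n + ρ) ≠ G n then (1 : ℝ) else 0)), sum_sub_distrib, ← mul_sum,
    ← card_filter_real (fun n => G (n + 1 + ρ) ≠ G (n + 1))] at h1
  simp only [sum_const, card_range, nsmul_eq_mul, mul_one] at h1
  linarith

lemma log_changes_of_root (m : ℕ) (ζ : ℂ) (hn : ‖ζ‖ = 1) (G : ℕ → ℕ) (ρ N : ℕ) (c : ℝ)
    (h : ‖∑ n ∈ Icc 1 N, ζ ^ G n * (starRingEnd ℂ) (ζ ^ G (n + ρ)) / (n : ℂ)‖ ≤ (1 - c) * Real.log N) :
    c / 2 * Real.log N ≤ lcard ((range N).filter fun n => G (n + 1 + ρ) ≠ G (n + 1)) := by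
  have h1 : ∑ n ∈ Icc 1 N, (1 / (n : ℝ) - 2 * (1 / (n : ℝ) * (if G (n + ρ) ≠ G n then (1 : ℝ) else 0))) ≤
      (1 - c) * Real.log N := by
    refine le_trans ?_ ((Complex.re_le_norm _).trans h)
    rw [Complex.re_sum]
    refine sum_le_sum fun n _ => ?_
    have hdiv : (ζ ^ G n * (starRingEnd ℂ) (ζ ^ G (n + ρ)) / (n : ℂ)).re =
        1 / (n : ℝ) * (ζ ^ G n * (starRingEnd ℂ) (ζ ^ G (n + ρ))).re := by
      rw [← Complex.ofReal_natCast, Complex.div_ofReal_re]
      ring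
    rw [hdiv]
    have hn0 : (0 : ℝ) ≤ 1 / (n : ℝ) := by positivity
    by_cases hh : G (n + ρ) = G n
    · rw [if_neg (not_not.2 hh), hh, re_mul_conj _ _ (by rw [norm_pow, hn, one_pow]) (by rw [norm_pow, hn, one_pow])]
      simp
    · rw [if_pos hh]
      have h2 := Complex.abs_re_le_norm (ζ ^ G n * (starRingEnd ℂ) (ζ ^ G (n + ρ)))
      rw [norm_mul, RCLike.norm_conj, norm_pow, norm_pow, hn, one_pow, one_pow, mul_one] at h2
      have h3 := (abs_le.1 h2).1
      nlinarith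
  rw [sum_sub_distrib, ← mul_sum] at h1
  have h2 : ∑ n ∈ Icc 1 N, 1 / (n : ℝ) * (if G (n + ρ) ≠ G n then (1 : ℝ) else 0) =
      lcard ((range N).filter fun n => G (n + 1 + ρ) ≠ G (n + 1)) := by
    rw [sum_Icc_range (fun n => 1 / (n : ℝ) * (if G (n + ρ) ≠ G n then (1 : ℝ) else 0)), lcard_filter]
    refine sum_congr rfl fun n _ => ?_
    push_cast
    ring
  rw [h2] at h1
  have h3 := log_le_harm N
  linarith

/-- functions of `Ω` which change when `Ω` grows by `j` are not nearly constant -/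
lemma freq_dilate (F : ℕ → ℕ) (j : ℕ) (hF : ∀ l, F (l + j) ≠ F l) (N : ℕ) (hN : 2 ^ j ≤ N) (v : ℕ) :
    (((Icc 1 N).filter fun n => F (cardFactors n) = v).card : ℝ) ≤ (1 - 1 / 2 ^ (j + 2)) * N := by
  classical
  have h2j : 0 < 2 ^ j := by positivity
  set T := N / 2 ^ j with hT
  have hTN : T * 2 ^ j ≤ N := Nat.div_mul_le_self N (2 ^ j)
  have hTN' : N < (T + 1) * 2 ^ j := by
    have := Nat.lt_div_mul_add (a := N) h2j
    rw [add_mul, one_mul]
    exact this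
  have hT1 : 1 ≤ T := (Nat.one_le_div_iff h2j).2 hN
  have hTle : T ≤ N := Nat.div_le_self _ _
  have hcf : ∀ n : ℕ, 1 ≤ n → cardFactors (2 ^ j * n) = cardFactors n + j := by
    intro n hn
    rw [ArithmeticFunction.cardFactors_mul (by positivity) (by omega), ArithmeticFunction.cardFactors_pow,
      ArithmeticFunction.cardFactors_apply_prime Nat.prime_two]
    ring
  have h1 : ((Icc 1 T).filter fun n => F (cardFactors n) = v).card ≤
      ((Icc 1 N).filter fun n => F (cardFactors n) ≠ v).card := by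
    refine card_le_card_of_injOn (fun n => 2 ^ j * n) (fun n hn => ?_) (fun x _ y _ h => ?_)
    · simp only [coe_filter, mem_Icc, Set.mem_setOf_eq] at hn ⊢
      refine ⟨⟨Nat.mul_pos h2j (by omega), ?_⟩, ?_⟩
      · calc 2 ^ j * n ≤ 2 ^ j * T := Nat.mul_le_mul_left _ hn.1.2
          _ ≤ N := by rw [mul_comm]; exact hTN
      · rw [hcf n hn.1.1, ← hn.2]
        exact hF _
    · exact Nat.eq_of_mul_eq_mul_left h2j h
  have h2 : ((Icc 1 T).filter fun n => F (cardFactors n) ≠ v).card ≤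
      ((Icc 1 N).filter fun n => F (cardFactors n) ≠ v).card := by
    refine card_le_card (filter_subset_filter _ (Icc_subset_Icc_right hTle))
  have h3 : ((Icc 1 T).filter fun n => F (cardFactors n) = v).card +
      ((Icc 1 T).filter fun n => F (cardFactors n) ≠ v).card = T := by
    have := card_filter_add_card_filter_not (s := Icc 1 T) (fun n => F (cardFactors n) = v)
    simpa using this
  have h4 : ((Icc 1 N).filter fun n => F (cardFactors n) = v).card +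
      ((Icc 1 N).filter fun n => F (cardFactors n) ≠ v).card = N := by
    have := card_filter_add_card_filter_not (s := Icc 1 N) (fun n => F (cardFactors n) = v)
    simpa using this
  have h5 : N ≤ 2 ^ (j + 2) * ((Icc 1 N).filter fun n => F (cardFactors n) ≠ v).card := by
    have h6 : T ≤ 2 * ((Icc 1 N).filter fun n => F (cardFactors n) ≠ v).card := by omega
    have h7 : N ≤ 2 * T * 2 ^ j := by nlinarith
    calc N ≤ 2 * T * 2 ^ j := h7
      _ ≤ 2 * (2 * ((Icc 1 N).filter fun n => F (cardFactors n) ≠ v).card) * 2 ^ j := by gcongr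
      _ = _ := by rw [pow_add]; ring
  have h6 : (N : ℝ) ≤ 2 ^ (j + 2) * ((Icc 1 N).filter fun n => F (cardFactors n) ≠ v).card := by exact_mod_cast h5
  have h7 : (((Icc 1 N).filter fun n => F (cardFactors n) = v).card : ℝ) +
      ((Icc 1 N).filter fun n => F (cardFactors n) ≠ v).card = N := by exact_mod_cast h4
  have h8 : (N : ℝ) / 2 ^ (j + 2) ≤ ((Icc 1 N).filter fun n => F (cardFactors n) ≠ v).card := by
    rw [div_le_iff₀ (by positivity)]
    linarith
  have h9 : (1 - 1 / 2 ^ (j + 2)) * (N : ℝ) = N - N / 2 ^ (j + 2) := by ring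
  rw [h9]
  linarith

end Pool.Agent.U496.PS
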