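import Mathlib

/-!
# An elementary comparison of `√x (log log x) ^ (K + 1) / log x` at `x` and at a multiple of `x`
-/

set_option autoImplicit false

namespace Pool.Agent.U496.PS

open Real

lemma log_le_sqrt' {N : ℝ} (hN : 256 ≤ N) : Real.log N ≤ √N := by
  have h0 : (0 : ℝ) < N := by linarith
  have h1 : (16 : ℝ) ≤ √N := by
    rw [Real.le_sqrt (by norm_num) h0.le]
    linarith
  have h2 : (4 : ℝ) ≤ √(√N) := by
    rw [Real.le_sqrt (by norm_num) (by positivity)]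
    linarith
  have h3 : Real.log N = 4 * Real.log (√(√N)) := by
    rw [Real.log_sqrt (by positivity), Real.log_sqrt h0.le]
    ring
  have h4 : Real.log (√(√N)) ≤ √(√N) - 1 := Real.log_le_sub_one_of_pos (by linarith)
  have h5 : √(√N) * √(√N) = √N := Real.mul_self_sqrt (by positivity)
  rw [h3]
  nlinarith

/-- `x` is between `N / 2` and `A N` -/
theorem compare (A K1 : ℝ) (hK1 : 0 ≤ K1) (K : ℕ) : ∃ N₁ : ℕ, ∀ N : ℕ, N₁ ≤ N → ∀ x : ℝ,
    (N : ℝ) / 2 ≤ x → x ≤ A * N →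
    K1 * (√N * Real.log (Real.log N) ^ K / Real.log N + 1) ≤
      √x * Real.log (Real.log x) ^ (K + 1) / Real.log x := by
  obtain ⟨N₁, hN₁⟩ := exists_nat_gt (max (max A 256) (Real.exp (Real.exp (max 4 (2 ^ (K + 4) * K1)))))
  refine ⟨N₁, fun N hN x hx1 hx2 => ?_⟩
  have hNN : max (max A 256) (Real.exp (Real.exp (max 4 (2 ^ (K + 4) * K1)))) ≤ (N : ℝ) :=
    hN₁.le.trans (by exact_mod_cast hN)
  have hNA : A ≤ (N : ℝ) := (le_max_left _ _).trans ((le_max_left _ _).trans hNN)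
  have hN256 : (256 : ℝ) ≤ N := (le_max_right _ _).trans ((le_max_left _ _).trans hNN)
  have hNe : Real.exp (Real.exp (max 4 (2 ^ (K + 4) * K1))) ≤ (N : ℝ) := (le_max_right _ _).trans hNN
  have hN0 : (0 : ℝ) < N := by linarith
  obtain ⟨u, hu⟩ : ∃ u, u = Real.log N := ⟨_, rfl⟩
  obtain ⟨v, hv⟩ : ∃ v, v = Real.log u := ⟨_, rfl⟩
  have hu1 : Real.exp (max 4 (2 ^ (K + 4) * K1)) ≤ u := by
    rw [hu, Real.le_log_iff_exp_le hN0]
    exact hNe
  have hu0 : 0 < u := lt_of_lt_of_le (Real.exp_pos _) hu1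
  have hv1 : max 4 (2 ^ (K + 4) * K1) ≤ v := by
    rw [hv, Real.le_log_iff_exp_le hu0]
    exact hu1
  have hv4 : 4 ≤ v := (le_max_left _ _).trans hv1
  have hvK : 2 ^ (K + 4) * K1 ≤ v := (le_max_right _ _).trans hv1
  have hu4 : 4 ≤ u := by
    have := Real.log_le_sub_one_of_pos hu0
    rw [← hv] at this
    linarith
  have hx0 : 0 < x := by linarith
  -- the logarithm of x
  have hlx1 : Real.log x ≤ 2 * u := by
    have h1 : x ≤ (N : ℝ) * N := hx2.trans (mul_le_mul_of_nonneg_right hNA hN0.le)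
    have h2 := Real.log_le_log hx0 h1
    rw [Real.log_mul hN0.ne' hN0.ne', ← hu] at h2
    linarith
  have hlx2 : √u ≤ Real.log x := by
    have h1 := Real.log_le_log (by positivity) hx1
    rw [Real.log_div hN0.ne' (by norm_num), ← hu] at h1
    have h2 : Real.log 2 ≤ 1 := by
      have := Real.log_two_lt_d9
      linarith
    have h3 : √u ≤ u / 2 := by
      rw [Real.sqrt_le_left (by linarith)]
      nlinarith
    linarith
  have hlx0 : 0 < Real.log x := lt_of_lt_of_le (Real.sqrt_pos.2 hu0) hlx2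
  have hllx : v / 2 ≤ Real.log (Real.log x) := by
    have h1 := Real.log_le_log (Real.sqrt_pos.2 hu0) hlx2
    rw [Real.log_sqrt hu0.le, ← hv] at h1
    exact h1
  have hsx : √(N : ℝ) / 2 ≤ √x := by
    rw [Real.le_sqrt (by positivity) hx0.le, div_pow, Real.sq_sqrt hN0.le]
    linarith
  have hv0 : 0 < v := by linarith
  have hR : (√(N : ℝ) / 2) * (v / 2) ^ (K + 1) / (2 * u) ≤ √x * Real.log (Real.log x) ^ (K + 1) / Real.log x := by
    have h1 : (v / 2) ^ (K + 1) ≤ Real.log (Real.log x) ^ (K + 1) := pow_le_pow_left₀ (by positivity) hllx _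
    have h2 : (√(N : ℝ) / 2) * (v / 2) ^ (K + 1) ≤ √x * Real.log (Real.log x) ^ (K + 1) :=
      mul_le_mul hsx h1 (by positivity) (by positivity)
    exact div_le_div₀ (le_trans (by positivity) h2) h2 hlx0 hlx1
  refine le_trans ?_ hR
  have h1 : 1 ≤ √(N : ℝ) * v ^ K / u := by
    rw [le_div_iff₀ hu0, one_mul]
    have h2 := log_le_sqrt' hN256
    rw [← hu] at h2
    have h3 : (1 : ℝ) ≤ v ^ K := one_le_pow₀ (by linarith)
    have h4 : √(N : ℝ) * 1 ≤ √(N : ℝ) * v ^ K := mul_le_mul_of_nonneg_left h3 (by positivity)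
    linarith
  have h5 : K1 * (√(N : ℝ) * v ^ K / u + 1) ≤ 2 * K1 * (√(N : ℝ) * v ^ K / u) := by nlinarith
  rw [← hu, ← hv]
  refine h5.trans ?_
  have h6 : √(N : ℝ) / 2 * (v / 2) ^ (K + 1) / (2 * u) = (v / 2 ^ (K + 3)) * (√(N : ℝ) * v ^ K / u) := by
    rw [div_pow]
    field_simp
    ring
  rw [h6]
  refine mul_le_mul_of_nonneg_right ?_ (by positivity)
  rw [le_div_iff₀ (by positivity)]
  calc 2 * K1 * 2 ^ (K + 3) = 2 ^ (K + 4) * K1 := by ring
    _ ≤ v := hvK

end Pool.Agent.U496.PS
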