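import Pool.Agent.U496.PS.Pat

/-!
# Pushdown machines and joint patterns, with one-pass functions added
-/

set_option autoImplicit false

namespace Pool.Agent.U496.PS

open Finset
open Pool.Agent.U364.PD (Machine errors)

/-- one pass over the binary digits, from the lowest or from the highest, with `Q` memory states -/
def OnePass (Q : ℕ) (u : ℕ → ZMod 2) : Prop :=
  (∀ k : ℕ, ∃ (s : ℕ → Fin Q) (h : Fin Q → ℕ → ZMod 2), ∀ n r : ℕ, 1 ≤ n → r < 2 ^ k →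
    u (2 ^ k * n + r) = h (s r) n) ∨
  (∀ k : ℕ, ∃ (s : ℕ → Fin Q) (h : Fin Q → ℕ → ZMod 2), ∀ n r : ℕ, 1 ≤ n → r < 2 ^ k →
    u (2 ^ k * n + r) = h (s n) r)

lemma OnePass.mono {Q Q' : ℕ} (hQ : Q ≤ Q') (h0 : 0 < Q) {u : ℕ → ZMod 2} (h : OnePass Q u) : OnePass Q' u := by
  have key : ∃ (f : Fin Q → Fin Q') (g : Fin Q' → Fin Q), ∀ x, g (f x) = x := by
    refine ⟨Fin.castLE hQ, fun y => if hy : (y : ℕ) < Q then ⟨y, hy⟩ else ⟨0, h0⟩, fun x => ?_⟩
    simp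
  obtain ⟨f, g, hfg⟩ := key
  rcases h with h | h
  · left
    intro k
    obtain ⟨s, h, hh⟩ := h k
    refine ⟨fun r => f (s r), fun y => h (g y), fun n r hn hr => ?_⟩
    rw [hh n r hn hr]
    simp only [hfg]
  · right
    intro k
    obtain ⟨s, h, hh⟩ := h k
    refine ⟨fun r => f (s r), fun y => h (g y), fun n r hn hr => ?_⟩
    rw [hh n r hn hr]
    simp only [hfg]

lemma OnePass.pos {Q : ℕ} {u : ℕ → ZMod 2} (h : OnePass Q u) : 0 < Q := by
  rcases h with h | h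
  · obtain ⟨s, _⟩ := h 0
    exact lt_of_le_of_lt (Nat.zero_le _) (s 0).2
  · obtain ⟨s, _⟩ := h 0
    exact lt_of_le_of_lt (Nat.zero_le _) (s 0).2

/-- transport of the states along an equivalence with a `Fin` -/
lemma onePass_low {T : Type} [Fintype T] {u : ℕ → ZMod 2}
    (h : ∀ k : ℕ, ∃ (s : ℕ → T) (h : T → ℕ → ZMod 2), ∀ n r : ℕ, 1 ≤ n → r < 2 ^ k →
      u (2 ^ k * n + r) = h (s r) n) : OnePass (Fintype.card T) u := by
  left
  intro k
  obtain ⟨s, h, hh⟩ := h k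
  refine ⟨fun r => Fintype.equivFin T (s r), fun y => h ((Fintype.equivFin T).symm y), fun n r hn hr => ?_⟩
  rw [hh n r hn hr]
  simp only [Equiv.symm_apply_apply]

lemma onePass_high {T : Type} [Fintype T] {u : ℕ → ZMod 2}
    (h : ∀ k : ℕ, ∃ (s : ℕ → T) (h : T → ℕ → ZMod 2), ∀ n r : ℕ, 1 ≤ n → r < 2 ^ k →
      u (2 ^ k * n + r) = h (s n) r) : OnePass (Fintype.card T) u := by
  right
  intro k
  obtain ⟨s, h, hh⟩ := h k
  refine ⟨fun r => Fintype.equivFin T (s r), fun y => h ((Fintype.equivFin T).symm y), fun n r hn hr => ?_⟩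
  rw [hh n r hn hr]
  simp only [Equiv.symm_apply_apply]

/-- the shifts of a one-pass function are one-pass functions -/
theorem OnePass.shift {Q : ℕ} {u : ℕ → ZMod 2} (h : OnePass Q u) (ρ : ℕ) :
    OnePass (Q * (ρ + 1) + Q ^ (ρ + 1)) (fun n => u (n + ρ)) := by
  classical
  have hQ := h.pos
  rcases h with h | h
  · have h1 : OnePass (Fintype.card (Fin Q × Fin (ρ + 1))) (fun n => u (n + ρ)) := by
      apply onePass_low
      intro k
      obtain ⟨s, g, hg⟩ := h k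
      have h2k : 0 < 2 ^ k := by positivity
      refine ⟨fun r => (s ((r + ρ) % 2 ^ k), Fin.ofNat (ρ + 1) ((r + ρ) / 2 ^ k)), fun y n => g y.1 (n + y.2), ?_⟩
      intro n r hn hr
      have h3 : (r + ρ) / 2 ^ k < ρ + 1 := by
        rw [Nat.div_lt_iff_lt_mul h2k]
        nlinarith
      have h4 : ((Fin.ofNat (ρ + 1) ((r + ρ) / 2 ^ k) : Fin (ρ + 1)) : ℕ) = (r + ρ) / 2 ^ k := by
        rw [Fin.val_ofNat, Nat.mod_eq_of_lt h3]
      change u (2 ^ k * n + r + ρ) = g (s ((r + ρ) % 2 ^ k)) (n + (Fin.ofNat (ρ + 1) ((r + ρ) / 2 ^ k) : Fin (ρ + 1)))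
      rw [h4, ← hg _ _ (by omega) (Nat.mod_lt _ h2k)]
      congr 1
      have := Nat.div_add_mod (r + ρ) (2 ^ k)
      rw [mul_add]
      omega
    rw [Fintype.card_prod, Fintype.card_fin, Fintype.card_fin] at h1
    exact h1.mono (Nat.le_add_right _ _) (by positivity)
  · have h1 : OnePass (Fintype.card (Fin (ρ + 1) → Fin Q)) (fun n => u (n + ρ)) := by
      apply onePass_high
      intro k
      obtain ⟨s, g, hg⟩ := h k
      have h2k : 0 < 2 ^ k := by positivity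
      refine ⟨fun n i => s (n + i), fun y r => g (y (Fin.ofNat (ρ + 1) ((r + ρ) / 2 ^ k))) ((r + ρ) % 2 ^ k), ?_⟩
      intro n r hn hr
      have h3 : (r + ρ) / 2 ^ k < ρ + 1 := by
        rw [Nat.div_lt_iff_lt_mul h2k]
        nlinarith
      have h4 : ((Fin.ofNat (ρ + 1) ((r + ρ) / 2 ^ k) : Fin (ρ + 1)) : ℕ) = (r + ρ) / 2 ^ k := by
        rw [Fin.val_ofNat, Nat.mod_eq_of_lt h3]
      change u (2 ^ k * n + r + ρ) = g (s (n + (Fin.ofNat (ρ + 1) ((r + ρ) / 2 ^ k) : Fin (ρ + 1)))) ((r + ρ) % 2 ^ k)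
      rw [h4, ← hg _ _ (by omega) (Nat.mod_lt _ h2k)]
      congr 1
      have := Nat.div_add_mod (r + ρ) (2 ^ k)
      rw [mul_add]
      omega
    rw [Fintype.card_fun, Fintype.card_fin, Fintype.card_fin] at h1
    exact h1.mono (Nat.le_add_left _ _) (by positivity)

/-- joint patterns of the dilates of `g`, with one-pass functions added, take the value 1 often -/
def OftenJ (g : ℕ → ZMod 2) : Prop :=
  ∀ b A L R Q K : ℕ, ∃ x0 : ℕ, ∀ x : ℕ, x0 ≤ x → ∀ c : Fin (A + 1) → Fin (L + 1) → ZMod 2, c ≠ 0 →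
    ∀ v : Fin R → ℕ → ZMod 2, (∀ z, OnePass Q (v z)) → ∀ Φ : (Fin R → ZMod 2) → ZMod 2,
      √(x : ℝ) * Real.log (Real.log x) ^ K / Real.log x ≤
        (((range (x + 1)).filter fun n => n % 2 ^ b = 0 ∧
          ∑ a : Fin (A + 1), ∑ i : Fin (L + 1), c a i * g (4 ^ (a : ℕ) * n + i) + Φ (fun z => v z n) = 1).card : ℝ)

theorem changesJ_ge (g : ℕ → ZMod 2) (hg : OftenJ g) (b A L R Q r ρ : ℕ) (hρ : 1 ≤ ρ) (K : ℕ) :
    ∃ N₀ : ℕ, ∀ N : ℕ, N₀ ≤ N → ∀ c : Fin (A + 1) → Fin (L + 1) → ZMod 2, c ≠ 0 →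
      ∀ v : Fin R → ℕ → ZMod 2, (∀ z, OnePass Q (v z)) → ∀ Φ : (Fin R → ZMod 2) → ZMod 2, ∀ w : ℕ → ZMod 2,
      (∀ n, w n = ∑ a : Fin (A + 1), ∑ i : Fin (L + 1), c a i * g (4 ^ (a : ℕ) * (2 ^ b * n + r) + i) +
        Φ (fun z => v z (2 ^ b * n + r))) →
      √((2 ^ b * (N - 1) : ℕ) : ℝ) * Real.log (Real.log (2 ^ b * (N - 1) : ℕ)) ^ K / Real.log (2 ^ b * (N - 1) : ℕ) ≤
        (((range N).filter (fun n => w (n + 1 + ρ) ≠ w (n + 1))).card : ℝ) := by
  obtain ⟨α, hα⟩ : ∃ α, α = 2 ^ b + r := ⟨_, rfl⟩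
  obtain ⟨β, hβ⟩ : ∃ β, β = 2 ^ b * (1 + ρ) + r := ⟨_, rfl⟩
  have h2b : 1 ≤ 2 ^ b := Nat.one_le_two_pow
  have hαβ : α < β := by
    rw [hα, hβ]
    nlinarith
  obtain ⟨L', hL'⟩ : ∃ L', L' = 4 ^ A * β + L := ⟨_, rfl⟩
  obtain ⟨x0, hx0⟩ := hg b A L' (R + R) ((Q * (α + 1) + Q ^ (α + 1)) + (Q * (β + 1) + Q ^ (β + 1))) K
  refine ⟨x0 + 1, fun N hN c hc v hv Φ w hw => ?_⟩
  have hx : x0 ≤ 2 ^ b * (N - 1) := by
    calc x0 ≤ 1 * (N - 1) := by omega
      _ ≤ 2 ^ b * (N - 1) := Nat.mul_le_mul_right _ h2b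
  have h4A : ∀ a : Fin (A + 1), 4 ^ (a : ℕ) ≤ 4 ^ A := fun a => Nat.pow_le_pow_right (by norm_num) (by omega)
  have hlt : ∀ a : Fin (A + 1), 4 ^ (a : ℕ) * α < 4 ^ (a : ℕ) * β := fun a =>
    Nat.mul_lt_mul_of_pos_left hαβ (by positivity)
  have hle : ∀ a : Fin (A + 1), 4 ^ (a : ℕ) * β + L ≤ L' := fun a => by
    rw [hL']
    have := Nat.mul_le_mul_right β (h4A a)
    omega
  obtain ⟨c', hc'⟩ : ∃ c' : Fin (A + 1) → Fin (L' + 1) → ZMod 2,
      c' = fun a (j : Fin (L' + 1)) => shc (c a) (4 ^ (a : ℕ) * α) j + shc (c a) (4 ^ (a : ℕ) * β) j := ⟨_, rfl⟩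
  have hc'0 : c' ≠ 0 := by
    obtain ⟨a, ha⟩ : ∃ a, c a ≠ 0 := by
      by_contra hcon
      push Not at hcon
      exact hc (funext hcon)
    intro hzero
    have h1 := shc_ne (c a) ha (4 ^ (a : ℕ) * α) (4 ^ (a : ℕ) * β) L' (hlt a) (hle a)
    apply h1
    have h2 := congrFun hzero a
    rw [hc'] at h2
    exact h2
  have hv1 : ∀ z : Fin (R + R), OnePass ((Q * (α + 1) + Q ^ (α + 1)) + (Q * (β + 1) + Q ^ (β + 1)))
      (Fin.append (fun z n => v z (n + α)) (fun z n => v z (n + β)) z) := by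
    intro z
    refine Fin.addCases (fun i => ?_) (fun i => ?_) z
    · rw [Fin.append_left]
      have h1 := (hv i).shift α
      exact h1.mono (Nat.le_add_right _ _) h1.pos
    · rw [Fin.append_right]
      have h1 := (hv i).shift β
      exact h1.mono (Nat.le_add_left _ _) h1.pos
  refine (hx0 _ hx c' hc'0 (Fin.append (fun z n => v z (n + α)) (fun z n => v z (n + β))) hv1
    (fun y => Φ (fun z => y (Fin.castAdd R z)) + Φ (fun z => y (Fin.natAdd R z)))).trans ?_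
  rw [Nat.cast_le]
  apply card_le_card_of_injOn (fun m => m / 2 ^ b)
  · intro m hm
    rw [mem_coe, mem_filter, mem_range] at hm
    obtain ⟨hm1, hm2, hm3⟩ := hm
    rw [mem_coe, mem_filter, mem_range]
    obtain ⟨n, hn⟩ := Nat.dvd_of_mod_eq_zero hm2
    have hdiv : m / 2 ^ b = n := by
      rw [hn, Nat.mul_div_cancel_left _ (by positivity)]
    change m / 2 ^ b < N ∧ w (m / 2 ^ b + 1 + ρ) ≠ w (m / 2 ^ b + 1)
    rw [hdiv]
    constructor
    · rw [hn] at hm1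
      have h3 : 2 ^ b * n ≤ 2 ^ b * (N - 1) := by omega
      have h4 := Nat.le_of_mul_le_mul_left h3 (by positivity)
      omega
    · intro heq
      have e1 : 2 ^ b * (n + 1) + r = m + α := by rw [hn, hα]; ring
      have e2 : 2 ^ b * (n + 1 + ρ) + r = m + β := by rw [hn, hβ]; ring
      have h5 : ∑ a : Fin (A + 1), ∑ i : Fin (L' + 1), c' a i * g (4 ^ (a : ℕ) * m + i) =
          ∑ a : Fin (A + 1), ∑ i : Fin (L + 1), c a i * g (4 ^ (a : ℕ) * (m + α) + i) +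
            ∑ a : Fin (A + 1), ∑ i : Fin (L + 1), c a i * g (4 ^ (a : ℕ) * (m + β) + i) := by
        rw [← Finset.sum_add_distrib]
        refine Finset.sum_congr rfl fun a _ => ?_
        rw [hc']
        simp only [add_mul]
        rw [Finset.sum_add_distrib,
          shc_sum (c a) (4 ^ (a : ℕ) * α) L' (by have := hle a; have := hlt a; omega) (fun j => g (4 ^ (a : ℕ) * m + j)),
          shc_sum (c a) (4 ^ (a : ℕ) * β) L' (hle a) (fun j => g (4 ^ (a : ℕ) * m + j))]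
        congr 1
        · refine Finset.sum_congr rfl fun i _ => ?_
          congr 2
          ring
        · refine Finset.sum_congr rfl fun i _ => ?_
          congr 2
          ring
      have h6 : w (n + 1) + w (n + 1 + ρ) = 1 := by
        rw [hw, hw, e1, e2, ← hm3, h5]
        simp only [Fin.append_left, Fin.append_right]
        ring
      rw [heq] at h6
      have h7 : w (n + 1) + w (n + 1) = 0 := CharTwo.add_self_eq_zero _
      rw [h7] at h6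
      exact absurd h6 (by decide)
  · intro m hm m' hm' heq
    rw [mem_coe, mem_filter] at hm hm'
    have h1 := Nat.div_add_mod m (2 ^ b)
    have h2 := Nat.div_add_mod m' (2 ^ b)
    rw [hm.2.1] at h1
    rw [hm'.2.1] at h2
    have h3 : m / 2 ^ b = m' / 2 ^ b := heq
    rw [← h1, ← h2, h3]

/-- sequences which are predicted by a pushdown machine and which are near to a joint pattern with a one-pass function
added -/
theorem pushdown_joint (g : ℕ → ZMod 2) (hg : OftenJ g) (b A L R Q r : ℕ)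
    {S Γ : Type} [Finite S] [Finite Γ] (M : Machine S Γ) (B K : ℕ) :
    ∃ N₀ : ℕ, ∀ N : ℕ, N₀ ≤ N → ∀ c : Fin (A + 1) → Fin (L + 1) → ZMod 2, c ≠ 0 →
      ∀ v : Fin R → ℕ → ZMod 2, (∀ z, OnePass Q (v z)) → ∀ Φ : (Fin R → ZMod 2) → ZMod 2,
      ∀ (a : ℕ → ℤ) (φ : ℤ → ZMod 2), (∀ n, 0 ≤ a n ∧ a n < B) → ∀ (q₀ : S) (s₀ : List Γ),
        √(N : ℝ) * Real.log (Real.log N) ^ K / Real.log N ≤
          (((range N).filter fun n => φ (a (n + 1)) ≠
            ∑ α : Fin (A + 1), ∑ i : Fin (L + 1), c α i * g (4 ^ (α : ℕ) * (2 ^ b * (n + 1) + r) + i) +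
              Φ (fun z => v z (2 ^ b * (n + 1) + r))).card : ℝ) +
          errors M a q₀ s₀ N + s₀.length := by
  obtain ⟨K1, ρ, hρ, h1⟩ := changes_le M B
  obtain ⟨N₁, hN₁⟩ := changesJ_ge g hg b A L R Q r ρ hρ (K + 1)
  obtain ⟨N₂, hN₂⟩ := compare ((2 : ℝ) ^ b) ((K1 : ℝ) + ρ + 2) (by positivity) K
  refine ⟨max (max N₁ N₂) 2, fun N hN c hc v hv Φ a φ ha q₀ s₀ => ?_⟩
  have hNN₁ : N₁ ≤ N := (le_max_left _ _).trans ((le_max_left _ _).trans hN)
  have hNN₂ : N₂ ≤ N := (le_max_right _ _).trans ((le_max_left _ _).trans hN)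
  have hN2 : 2 ≤ N := (le_max_right _ _).trans hN
  obtain ⟨w, hw⟩ : ∃ w : ℕ → ZMod 2, w = fun n =>
    ∑ α : Fin (A + 1), ∑ i : Fin (L + 1), c α i * g (4 ^ (α : ℕ) * (2 ^ b * n + r) + i) +
      Φ (fun z => v z (2 ^ b * n + r)) := ⟨_, rfl⟩
  have h2 := hN₁ N hNN₁ c hc v hv Φ w (fun n => by rw [hw])
  have hN2' : (2 : ℝ) ≤ N := by exact_mod_cast hN2
  have hcast : (((2 ^ b * (N - 1) : ℕ)) : ℝ) = (2 : ℝ) ^ b * ((N : ℝ) - 1) := by
    rw [Nat.cast_mul, Nat.cast_pow, Nat.cast_sub (by omega)]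
    simp
  have h2b : (1 : ℝ) ≤ 2 ^ b := one_le_pow₀ (by norm_num)
  have h3 := hN₂ N hNN₂ (((2 ^ b * (N - 1) : ℕ)) : ℝ) (by
    rw [hcast]
    nlinarith) (by
    rw [hcast]
    nlinarith)
  obtain ⟨D, hD⟩ : ∃ D, D = ((range N).filter fun n => φ (a (n + 1)) ≠
    ∑ α : Fin (A + 1), ∑ i : Fin (L + 1), c α i * g (4 ^ (α : ℕ) * (2 ^ b * (n + 1) + r) + i) +
      Φ (fun z => v z (2 ^ b * (n + 1) + r))).card := ⟨_, rfl⟩
  have h4 : (((range N).filter (fun n => w (n + 1 + ρ) ≠ w (n + 1))).card : ℝ) ≤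
      (K1 + ρ + 2) * ((D : ℝ) + errors M a q₀ s₀ N + s₀.length + 1) := by
    have h5 := h1 a ha q₀ s₀ N
    have h6 := changes_near a φ w ρ N
    have h7 : ((range N).filter (fun n => φ (a (n + 1)) ≠ w (n + 1))).card = D := by
      rw [hD]
      congr 1
      ext n
      rw [mem_filter, mem_filter, hw]
    rw [h7] at h6
    have h8 : ((range N).filter (fun n => w (n + 1 + ρ) ≠ w (n + 1))).card ≤
        K1 * (errors M a q₀ s₀ N + s₀.length + 1) + (2 * D + ρ) := by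
      refine h6.trans (Nat.add_le_add_right (le_trans (le_of_eq ?_) h5) _)
      congr 1
    have h9 : K1 * (errors M a q₀ s₀ N + s₀.length + 1) + (2 * D + ρ) ≤
        (K1 + ρ + 2) * (D + errors M a q₀ s₀ N + s₀.length + 1) := by
      nlinarith [Nat.zero_le (K1 * D), Nat.zero_le (ρ * (D + errors M a q₀ s₀ N + s₀.length)),
        Nat.zero_le (errors M a q₀ s₀ N + s₀.length)]
    have h10 := h8.trans h9
    exact_mod_cast h10
  obtain ⟨F, hF⟩ : ∃ F, F = √(N : ℝ) * Real.log (Real.log N) ^ K / Real.log N := ⟨_, rfl⟩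
  rw [← hF] at h3 ⊢
  rw [← hD]
  have h8 := (h3.trans h2).trans h4
  by_contra hcon
  push Not at hcon
  have hK1 : (0 : ℝ) < K1 + ρ + 2 := by positivity
  have h11 := le_of_mul_le_mul_left h8 hK1
  linarith

end Pool.Agent.U496.PS
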