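import Pool.Agent.U496.PS.Fact
import Pool.Agent.U496.PS.Asy

/-!
# Pushdown machines and sequences modulo 2 all of whose linear patterns take the value 1 often
-/

set_option autoImplicit false

namespace Pool.Agent.U496.PS

open Finset
open Pool.Agent.U364.PD (Machine errors)

/-- extension by zero, shifted by `A` -/
def shc {L : ℕ} (c : Fin (L + 1) → ZMod 2) (A j : ℕ) : ZMod 2 :=
  if h : A ≤ j ∧ j - A < L + 1 then c ⟨j - A, h.2⟩ else 0

lemma shc_add {L : ℕ} (c : Fin (L + 1) → ZMod 2) (A : ℕ) (i : Fin (L + 1)) : shc c A (A + i) = c i := by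
  unfold shc
  rw [dif_pos ⟨by omega, by have := i.2; omega⟩]
  congr 1
  ext
  simp

lemma shc_sum {L : ℕ} (c : Fin (L + 1) → ZMod 2) (A L' : ℕ) (h : A + L ≤ L') (g : ℕ → ZMod 2) :
    ∑ j : Fin (L' + 1), shc c A j * g j = ∑ i : Fin (L + 1), c i * g (A + i) := by
  rw [Finset.sum_range (n := L' + 1) (fun j => shc c A j * g j) |>.symm]
  have h1 : ∀ i : Fin (L + 1), c i * g (A + i) = shc c A (A + i) * g (A + i) := by
    intro i
    rw [shc_add]
  rw [Finset.sum_congr rfl (fun i _ => h1 i),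
    ← Finset.sum_range (n := L + 1) (fun i => shc c A (A + i) * g (A + i))]
  have h2 : L' + 1 = A + (L + 1) + (L' - (A + L)) := by omega
  rw [h2, Finset.sum_range_add, Finset.sum_range_add]
  rw [Finset.sum_eq_zero (s := range A), zero_add,
    Finset.sum_eq_zero (s := range (L' - (A + L))), add_zero]
  · intro j _
    unfold shc
    rw [dif_neg (by omega), zero_mul]
  · intro j hj
    rw [Finset.mem_range] at hj
    unfold shc
    rw [dif_neg (by omega), zero_mul]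

lemma shc_ne {L : ℕ} (c : Fin (L + 1) → ZMod 2) (hc : c ≠ 0) (A B L' : ℕ) (hAB : A < B) (hB : B + L ≤ L') :
    (fun j : Fin (L' + 1) => shc c A j + shc c B j) ≠ 0 := by
  classical
  obtain ⟨i1, hi1⟩ : ∃ i : Fin (L + 1), c i ≠ 0 := by
    by_contra hcon
    push Not at hcon
    exact hc (funext hcon)
  have hex : ∃ k : ℕ, ∃ h : k < L + 1, c ⟨k, h⟩ ≠ 0 := ⟨i1, i1.2, hi1⟩
  obtain ⟨k, hk⟩ : ∃ k, k = Nat.find hex := ⟨_, rfl⟩
  obtain ⟨hkL, hck⟩ : ∃ h : k < L + 1, c ⟨k, h⟩ ≠ 0 := by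
    rw [hk]
    exact Nat.find_spec hex
  have hmin : ∀ (m : ℕ) (h : m < L + 1), m < k → c ⟨m, h⟩ = 0 := by
    intro m h hm
    by_contra hcon
    exact Nat.find_min hex (by rw [← hk]; exact hm) ⟨h, hcon⟩
  intro hzero
  have h1 := congrFun hzero ⟨A + k, by omega⟩
  have h2 : shc c A (A + k) = c ⟨k, hkL⟩ := shc_add c A ⟨k, hkL⟩
  have h3 : shc c B (A + k) = 0 := by
    unfold shc
    split_ifs with h
    · exact hmin _ h.2 (by omega)
    · rfl
  change shc c A (A + k) + shc c B (A + k) = 0 at h1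
  rw [h2, h3, add_zero] at h1
  exact hck h1

/-- every nonzero linear pattern of `g` takes the value 1 often, in all residue classes modulo the powers of two -/
def Often (g : ℕ → ZMod 2) : Prop :=
  ∀ (b L : ℕ) (c : Fin (L + 1) → ZMod 2), c ≠ 0 → ∀ K : ℕ, ∃ x0 : ℕ, ∀ x : ℕ, x0 ≤ x →
    √(x : ℝ) * Real.log (Real.log x) ^ K / Real.log x ≤
      (((range (x + 1)).filter fun n => n % 2 ^ b = 0 ∧ ∑ i : Fin (L + 1), c i * g (n + i) = 1).card : ℝ)

theorem changes_ge (g : ℕ → ZMod 2) (hg : Often g) (b L : ℕ) (c : Fin (L + 1) → ZMod 2) (hc : c ≠ 0) (r ρ : ℕ)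
    (hρ : 1 ≤ ρ) (K : ℕ) : ∃ N₀ : ℕ, ∀ N : ℕ, N₀ ≤ N → ∀ w : ℕ → ZMod 2,
      (∀ n, w n = ∑ i : Fin (L + 1), c i * g (2 ^ b * n + r + i)) →
      √((2 ^ b * (N - 1) : ℕ) : ℝ) * Real.log (Real.log (2 ^ b * (N - 1) : ℕ)) ^ K / Real.log (2 ^ b * (N - 1) : ℕ) ≤
        (((range N).filter (fun n => w (n + 1 + ρ) ≠ w (n + 1))).card : ℝ) := by
  obtain ⟨A, hA⟩ : ∃ A, A = 2 ^ b + r := ⟨_, rfl⟩
  obtain ⟨B, hB⟩ : ∃ B, B = 2 ^ b * (1 + ρ) + r := ⟨_, rfl⟩
  have h2b : 1 ≤ 2 ^ b := Nat.one_le_two_pow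
  have hAB : A < B := by
    rw [hA, hB]
    nlinarith
  obtain ⟨x0, hx0⟩ := hg b (B + L) _ (shc_ne c hc A B (B + L) hAB le_rfl) K
  refine ⟨x0 + 1, fun N hN w hw => ?_⟩
  have hx : x0 ≤ 2 ^ b * (N - 1) := by
    calc x0 ≤ 1 * (N - 1) := by omega
      _ ≤ 2 ^ b * (N - 1) := Nat.mul_le_mul_right _ h2b
  refine (hx0 _ hx).trans ?_
  rw [Nat.cast_le]
  apply card_le_card_of_injOn (fun m => m / 2 ^ b)
  · intro m hm
    rw [mem_coe, mem_filter, mem_range] at hm
    obtain ⟨hm1, hm2, hm3⟩ := hm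
    rw [mem_coe, mem_filter, mem_range]
    obtain ⟨n, hn⟩ := Nat.dvd_of_mod_eq_zero hm2
    have hdiv : m / 2 ^ b = n := by
      rw [hn, Nat.mul_div_cancel_left _ (by positivity)]
    change m / 2 ^ b < N ∧ w (m / 2 ^ b + 1 + ρ) ≠ w (m / 2 ^ b + 1)
    rw [hdiv]
    constructor
    · rw [hn] at hm1
      have h3 : 2 ^ b * n ≤ 2 ^ b * (N - 1) := by omega
      have h4 := Nat.le_of_mul_le_mul_left h3 (by positivity)
      omega
    · intro heq
      have h5 : ∑ i : Fin (B + L + 1), (shc c A i + shc c B i) * g (m + i) = w (n + 1) + w (n + 1 + ρ) := by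
        simp only [add_mul]
        rw [Finset.sum_add_distrib, shc_sum c A (B + L) (by omega) (fun j => g (m + j)),
          shc_sum c B (B + L) le_rfl (fun j => g (m + j)), hw, hw]
        congr 1
        · refine Finset.sum_congr rfl fun i _ => ?_
          congr 2
          rw [hn, hA]
          ring
        · refine Finset.sum_congr rfl fun i _ => ?_
          congr 2
          rw [hn, hB]
          ring
      rw [h5, heq] at hm3
      have h6 : w (n + 1) + w (n + 1) = 0 := CharTwo.add_self_eq_zero _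
      rw [h6] at hm3
      exact absurd hm3 (by decide)
  · intro m hm m' hm' heq
    rw [mem_coe, mem_filter] at hm hm'
    have h1 := Nat.div_add_mod m (2 ^ b)
    have h2 := Nat.div_add_mod m' (2 ^ b)
    rw [hm.2.1] at h1
    rw [hm'.2.1] at h2
    have h3 : m / 2 ^ b = m' / 2 ^ b := heq
    rw [← h1, ← h2, h3]

/-- the changes of a sequence `w` which is near to a function of `a` -/
lemma changes_near {T : Type} [DecidableEq T] (a : ℕ → ℤ) (φ : ℤ → T) (w : ℕ → T) (ρ N : ℕ) :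
    ((range N).filter (fun n => w (n + 1 + ρ) ≠ w (n + 1))).card ≤
      ((range N).filter (fun n => a (n + 1 + ρ) ≠ a (n + 1))).card +
        (2 * ((range N).filter (fun n => φ (a (n + 1)) ≠ w (n + 1))).card + ρ) := by
  have h1 : (range N).filter (fun n => w (n + 1 + ρ) ≠ w (n + 1)) ⊆
      (range N).filter (fun n => a (n + 1 + ρ) ≠ a (n + 1)) ∪
        ((range N).filter (fun n => φ (a (n + 1)) ≠ w (n + 1)) ∪
          (range N).filter (fun n => φ (a (n + 1 + ρ)) ≠ w (n + 1 + ρ))) := by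
    intro n hn
    rw [mem_filter] at hn
    rw [mem_union, mem_union, mem_filter, mem_filter, mem_filter]
    by_contra hcon
    push Not at hcon
    obtain ⟨h2, h3, h4⟩ := hcon
    apply hn.2
    rw [← h4 hn.1, h2 hn.1, h3 hn.1]
  have h2 : ((range N).filter (fun n => φ (a (n + 1 + ρ)) ≠ w (n + 1 + ρ))).card ≤
      ((range N).filter (fun n => φ (a (n + 1)) ≠ w (n + 1))).card + ρ := by
    have h3 : ((range N).filter (fun n => φ (a (n + 1 + ρ)) ≠ w (n + 1 + ρ))).card ≤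
        ((range N).filter (fun n => φ (a (n + 1)) ≠ w (n + 1)) ∪ Ico N (N + ρ)).card := by
      apply card_le_card_of_injOn (fun n => n + ρ)
      · intro n hn
        rw [mem_coe, mem_filter, mem_range] at hn
        rw [mem_coe, mem_union, mem_filter, mem_range, mem_Ico]
        change n + ρ < N ∧ φ (a (n + ρ + 1)) ≠ w (n + ρ + 1) ∨ N ≤ n + ρ ∧ n + ρ < N + ρ
        by_cases h : n + ρ < N
        · left
          refine ⟨h, ?_⟩
          rw [show n + ρ + 1 = n + 1 + ρ by ring]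
          exact hn.2
        · right
          omega
      · intro n _ m _ h
        have : n + ρ = m + ρ := h
        omega
    refine h3.trans ((card_union_le _ _).trans ?_)
    rw [Nat.card_Ico]
    omega
  refine (card_le_card h1).trans ((card_union_le _ _).trans (Nat.add_le_add_left ((card_union_le _ _).trans ?_) _))
  omega

/-- sequences which are predicted by a pushdown machine and which are near to a linear pattern -/
theorem pushdown_pattern (g : ℕ → ZMod 2) (hg : Often g) (b L : ℕ) (c : Fin (L + 1) → ZMod 2) (hc : c ≠ 0) (r : ℕ)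
    {Q Γ : Type} [Finite Q] [Finite Γ] (M : Machine Q Γ) (B K : ℕ) :
    ∃ N₀ : ℕ, ∀ N : ℕ, N₀ ≤ N → ∀ (a : ℕ → ℤ) (φ : ℤ → ZMod 2), (∀ n, 0 ≤ a n ∧ a n < B) →
      ∀ (q₀ : Q) (s₀ : List Γ),
        √(N : ℝ) * Real.log (Real.log N) ^ K / Real.log N ≤
          (((range N).filter fun n =>
            φ (a (n + 1)) ≠ ∑ i : Fin (L + 1), c i * g (2 ^ b * (n + 1) + r + i)).card : ℝ) +
          errors M a q₀ s₀ N + s₀.length := by
  obtain ⟨K1, ρ, hρ, h1⟩ := changes_le M B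
  obtain ⟨N₁, hN₁⟩ := changes_ge g hg b L c hc r ρ hρ (K + 1)
  obtain ⟨N₂, hN₂⟩ := compare ((2 : ℝ) ^ b) ((K1 : ℝ) + ρ + 2) (by positivity) K
  refine ⟨max (max N₁ N₂) 2, fun N hN a φ ha q₀ s₀ => ?_⟩
  have hNN₁ : N₁ ≤ N := (le_max_left _ _).trans ((le_max_left _ _).trans hN)
  have hNN₂ : N₂ ≤ N := (le_max_right _ _).trans ((le_max_left _ _).trans hN)
  have hN2 : 2 ≤ N := (le_max_right _ _).trans hN
  obtain ⟨w, hw⟩ : ∃ w : ℕ → ZMod 2, w = fun n => ∑ i : Fin (L + 1), c i * g (2 ^ b * n + r + i) := ⟨_, rfl⟩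
  have h2 := hN₁ N hNN₁ w (fun n => by rw [hw])
  have hN2' : (2 : ℝ) ≤ N := by exact_mod_cast hN2
  have hcast : (((2 ^ b * (N - 1) : ℕ)) : ℝ) = (2 : ℝ) ^ b * ((N : ℝ) - 1) := by
    rw [Nat.cast_mul, Nat.cast_pow, Nat.cast_sub (by omega)]
    simp
  have h2b : (1 : ℝ) ≤ 2 ^ b := one_le_pow₀ (by norm_num)
  have h3 := hN₂ N hNN₂ (((2 ^ b * (N - 1) : ℕ)) : ℝ) (by
    rw [hcast]
    nlinarith) (by
    rw [hcast]
    nlinarith)
  obtain ⟨D, hD⟩ : ∃ D, D = ((range N).filter fun n =>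
    φ (a (n + 1)) ≠ ∑ i : Fin (L + 1), c i * g (2 ^ b * (n + 1) + r + i)).card := ⟨_, rfl⟩
  have h4 : (((range N).filter (fun n => w (n + 1 + ρ) ≠ w (n + 1))).card : ℝ) ≤
      (K1 + ρ + 2) * ((D : ℝ) + errors M a q₀ s₀ N + s₀.length + 1) := by
    have h5 := h1 a ha q₀ s₀ N
    have h6 := changes_near a φ w ρ N
    have h7 : ((range N).filter (fun n => φ (a (n + 1)) ≠ w (n + 1))).card = D := by
      rw [hD]
      congr 1
      ext n
      rw [mem_filter, mem_filter, hw]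
    rw [h7] at h6
    have h8 : ((range N).filter (fun n => w (n + 1 + ρ) ≠ w (n + 1))).card ≤
        K1 * (errors M a q₀ s₀ N + s₀.length + 1) + (2 * D + ρ) := by
      refine h6.trans (Nat.add_le_add_right (le_trans (le_of_eq ?_) h5) _)
      congr 1
    have h9 : K1 * (errors M a q₀ s₀ N + s₀.length + 1) + (2 * D + ρ) ≤
        (K1 + ρ + 2) * (D + errors M a q₀ s₀ N + s₀.length + 1) := by
      nlinarith [Nat.zero_le (K1 * D), Nat.zero_le (ρ * (D + errors M a q₀ s₀ N + s₀.length)),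
        Nat.zero_le (errors M a q₀ s₀ N + s₀.length)]
    have h10 := h8.trans h9
    exact_mod_cast h10
  obtain ⟨F, hF⟩ : ∃ F, F = √(N : ℝ) * Real.log (Real.log N) ^ K / Real.log N := ⟨_, rfl⟩
  rw [← hF] at h3 ⊢
  rw [← hD]
  have h8 := (h3.trans h2).trans h4
  by_contra hcon
  push Not at hcon
  have hK1 : (0 : ℝ) < K1 + ρ + 2 := by positivity
  have h11 := le_of_mul_le_mul_left h8 hK1
  linarith

end Pool.Agent.U496.PS
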